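import Pool.Agent.H979.BK.Stm

/-! # BK FG: the flows are linear with high probability -/

set_option autoImplicit false

open Filter Topology Finset Pool.Agent.H979.BK

namespace Pool.Agent.H104

/-- the statistic `flow u i l` as a linear statistic -/
theorem flow_eq {d n : ℕ} (u : Ball d n → Fin d) (i l : Fin d) :
    ((flow u i l : ℕ) : ℝ) = ∑ b : Ball d n, (if b.1 = i then (1 : ℝ) else 0) *
      (if u b = l then (1 : ℝ) else 0) := by
  unfold flow
  rw [Finset.card_filter]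
  push_cast
  refine sum_congr rfl fun b _ => ?_
  by_cases h1 : b.1 = i
  · by_cases h2 : u b = l
    · rw [if_pos ⟨h1, h2⟩, if_pos h1, if_pos h2, one_mul]
    · rw [if_neg (fun h => h2 h.2), if_neg h2, mul_zero]
  · rw [if_neg (fun h => h1 h.1), if_neg h1, zero_mul]

/-- the sum over the balls of urn `i` -/
theorem sum_urn {d n : ℕ} (i : Fin d) (g : Fin d → ℝ) :
    ∑ b : Ball d n, (if b.1 = i then (1 : ℝ) else 0) * g b.1 = n * g i := by
  rw [Fintype.sum_prod_type]
  have h1 : ∀ x : Fin d, ∑ y : Fin n, (if ((x, y) : Ball d n).1 = i then (1 : ℝ) else 0) *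
      g ((x, y) : Ball d n).1 = if x = i then (n : ℝ) * g x else 0 := by
    intro x
    by_cases hx : x = i
    · simp [hx]
    · simp [hx]
  rw [sum_congr rfl fun x _ => h1 x, Finset.sum_ite_eq' univ i]
  simp

theorem card_urn {d n : ℕ} (i : Fin d) :
    (univ.filter fun b : Ball d n => (if b.1 = i then (1 : ℝ) else 0) ≠ 0).card = n := by
  have h1 : (univ.filter fun b : Ball d n => (if b.1 = i then (1 : ℝ) else 0) ≠ 0) =
      ({i} : Finset (Fin d)) ×ˢ (univ : Finset (Fin n)) := by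
    ext b
    rw [mem_filter, mem_product, mem_singleton]
    by_cases h : b.1 = i
    · simp [h]
    · simp [h]
  rw [h1, card_product, card_singleton, one_mul, card_univ, Fintype.card_fin]

open Classical in
theorem bk_fg (hA1 : S_A1) (hB2 : S_B2) (hP : S_POSM) : S_FG := by
  intro d μ hd hμ hirr
  obtain ⟨α, δ0, hα, hδ0, hpos⟩ := hP d μ hμ hirr
  have hd0 : (0 : ℝ) < d := by
    have : 0 < d := by omega
    exact_mod_cast this
  refine ⟨α, δ0, 4 * (d : ℝ) ^ 2 / α ^ 2, hα, hδ0, by positivity, ?_⟩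
  intro n k hk hkn hδ
  have hn0 : (0 : ℝ) < n := by
    have : 0 < n := by omega
    exact_mod_cast this
  have hk0 : (0 : ℝ) < k := by exact_mod_cast hk
  obtain ⟨δ, hδdef⟩ : ∃ δ : ℝ, δ = (k : ℝ) / n := ⟨_, rfl⟩
  have hδpos : 0 < δ := by rw [hδdef]; positivity
  obtain ⟨m, hm⟩ : ∃ m : ℕ, m = ⌊1 / ((k : ℝ) / n)⌋₊ := ⟨_, rfl⟩
  have hmδ : (m : ℝ) * δ ≤ 1 := by
    have h1 : (m : ℝ) ≤ 1 / δ := by
      rw [hm, ← hδdef]
      exact Nat.floor_le (by positivity)
    calc (m : ℝ) * δ ≤ 1 / δ * δ := mul_le_mul_of_nonneg_right h1 hδpos.le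
      _ = 1 := by field_simp
  rw [← hm]
  obtain ⟨p, hp0, hp1, -, hpE⟩ := hA1 d n k μ hμ hkn m
  rw [hpE]
  -- the deviations
  let h : Fin d → Fin d → ℝ := fun l j => if j = l then 1 else 0
  let a : Fin d → Ball d n → ℝ := fun i b => if b.1 = i then 1 else 0
  let X : (Ball d n → Fin d) → Fin d → Fin d → ℝ := fun u i l =>
    ∑ b, a i b * h l (u b) - ∑ b, a i b * ((AU μ ((k : ℝ) / n)) ^ m).mulVec (h l) b.1
  have hvar : ∀ i l, ∑ u, p u * X u i l ^ 2 ≤ 4 * (n + δ * n ^ 2) := by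
    intro i l
    have h1 := hB2 d n k μ hμ hk hkn m (a i) (h l) 1 (fun b => by
      show |(if b.1 = i then (1 : ℝ) else 0)| ≤ 1
      split_ifs <;> simp) (fun j => by
      show |(if j = l then (1 : ℝ) else 0)| ≤ 1
      split_ifs <;> simp)
    rw [hpE] at h1
    have h2 : (univ.filter fun b : Ball d n => a i b ≠ 0).card = n := card_urn i
    rw [h2] at h1
    refine h1.trans ?_
    rw [← hδdef]
    have h3 : (m : ℝ) * (δ * n) ≤ n := by
      calc (m : ℝ) * (δ * n) = (m * δ) * n := by ring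
        _ ≤ 1 * n := mul_le_mul_of_nonneg_right hmδ hn0.le
        _ = n := one_mul _
    have h4 : (m : ℝ) * (δ * n) ^ 2 ≤ δ * n ^ 2 := by
      calc (m : ℝ) * (δ * n) ^ 2 = (m * δ) * (δ * n ^ 2) := by ring
        _ ≤ 1 * (δ * n ^ 2) := mul_le_mul_of_nonneg_right hmδ (by positivity)
        _ = δ * n ^ 2 := one_mul _
    nlinarith
  have hmean : ∀ i l, 2 * α * n ≤
      ∑ b, a i b * ((AU μ ((k : ℝ) / n)) ^ m).mulVec (h l) b.1 := by
    intro i l
    have h1 : ∑ b, a i b * ((AU μ ((k : ℝ) / n)) ^ m).mulVec (h l) b.1 =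
        n * ((AU μ ((k : ℝ) / n)) ^ m).mulVec (h l) i :=
      sum_urn i (((AU μ ((k : ℝ) / n)) ^ m).mulVec (h l))
    have h2 : ((AU μ ((k : ℝ) / n)) ^ m).mulVec (h l) i = ((AU μ ((k : ℝ) / n)) ^ m) i l := by
      show ∑ j, ((AU μ ((k : ℝ) / n)) ^ m) i j * (if j = l then (1 : ℝ) else 0) = _
      simp
    have h3 := hpos ((k : ℝ) / n) (by rw [← hδdef]; exact hδpos) hδ i l
    rw [← hm] at h3
    rw [h1, h2]
    nlinarith
  have hpt : ∀ u : Ball d n → Fin d, (if ∀ i l, α * n ≤ ((flow u i l : ℕ) : ℝ) then (0 : ℝ) else 1) ≤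
      ∑ i, ∑ l, X u i l ^ 2 / (α ^ 2 * n ^ 2) := by
    intro u
    split_ifs with hu
    · positivity
    · push Not at hu
      obtain ⟨i, l, hil⟩ := hu
      have h1 : 1 ≤ X u i l ^ 2 / (α ^ 2 * n ^ 2) := by
        rw [le_div_iff₀ (by positivity), one_mul]
        have h2 : X u i l ≤ -(α * n) := by
          show ∑ b, a i b * h l (u b) -
            ∑ b, a i b * ((AU μ ((k : ℝ) / n)) ^ m).mulVec (h l) b.1 ≤ -(α * n)
          have h3 : ((flow u i l : ℕ) : ℝ) = ∑ b, a i b * h l (u b) := flow_eq u i l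
          have h4 := hmean i l
          rw [← h3]
          linarith
        have h5 : 0 ≤ α * n := by positivity
        nlinarith
      have h2 : X u i l ^ 2 / (α ^ 2 * n ^ 2) ≤ ∑ l', X u i l' ^ 2 / (α ^ 2 * n ^ 2) :=
        Finset.single_le_sum (f := fun l' => X u i l' ^ 2 / (α ^ 2 * n ^ 2))
          (fun l' _ => by positivity) (mem_univ l)
      have h3 : ∑ l', X u i l' ^ 2 / (α ^ 2 * n ^ 2) ≤
          ∑ i', ∑ l', X u i' l' ^ 2 / (α ^ 2 * n ^ 2) :=
        Finset.single_le_sum (f := fun i' => ∑ l', X u i' l' ^ 2 / (α ^ 2 * n ^ 2))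
          (fun i' _ => Finset.sum_nonneg fun l' _ => by positivity) (mem_univ i)
      linarith
  calc ∑ u, p u * (if ∀ i l, α * n ≤ ((flow u i l : ℕ) : ℝ) then (0 : ℝ) else 1)
      ≤ ∑ u, p u * ∑ i, ∑ l, X u i l ^ 2 / (α ^ 2 * n ^ 2) :=
        sum_le_sum fun u _ => mul_le_mul_of_nonneg_left (hpt u) (hp0 u)
    _ = ∑ i, ∑ l, (∑ u, p u * X u i l ^ 2) / (α ^ 2 * n ^ 2) := by
        simp only [Finset.mul_sum]
        rw [Finset.sum_comm]
        refine sum_congr rfl fun i _ => ?_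
        rw [Finset.sum_comm]
        refine sum_congr rfl fun l _ => ?_
        rw [Finset.sum_div]
        refine sum_congr rfl fun u _ => ?_
        ring
    _ ≤ ∑ i : Fin d, ∑ l : Fin d, 4 * (n + δ * n ^ 2) / (α ^ 2 * n ^ 2) :=
        sum_le_sum fun i _ => sum_le_sum fun l _ =>
          div_le_div_of_nonneg_right (hvar i l) (by positivity)
    _ = 4 * (d : ℝ) ^ 2 / α ^ 2 * (δ + 1 / n) := by
        simp only [sum_const, card_univ, Fintype.card_fin, nsmul_eq_mul]
        field_simp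
        ring
    _ = 4 * (d : ℝ) ^ 2 / α ^ 2 * ((k : ℝ) / n + 1 / n) := by rw [hδdef]

end Pool.Agent.H104
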