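import Pool.Agent.H979.BK.Stm

/-! # BK PATH: a path of swaps between two balanced colourings -/

set_option autoImplicit false

open Filter Topology Finset Pool.Agent.H979.BK

namespace Pool.Agent.H104

theorem bal_comp {d n : ℕ} {c : Ball d n → Fin d} (hc : Bal c) (e : Equiv.Perm (Ball d n)) :
    Bal (c ∘ e) := by
  intro i
  refine Eq.trans ?_ (hc i)
  refine Finset.card_bij' (fun b _ => e b) (fun b _ => e.symm b) ?_ ?_ ?_ ?_
  · intro b hb
    rw [mem_filter] at hb ⊢
    exact ⟨mem_univ _, hb.2⟩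
  · intro b hb
    rw [mem_filter] at hb ⊢
    refine ⟨mem_univ _, ?_⟩
    rw [Function.comp_apply, Equiv.apply_symm_apply]
    exact hb.2
  · intro b _
    exact e.symm_apply_apply b
  · intro b _
    exact e.apply_symm_apply b

theorem bk_step {d n : ℕ} {c c' : Ball d n → Fin d} (hc : Bal c) (hc' : Bal c')
    (hne : c ≠ c') : ∃ b1 b2, c b1 ≠ c b2 ∧ dif (c ∘ Equiv.swap b1 b2) c' < dif c c' ∧
      ∀ b, c b = c' b → (c ∘ Equiv.swap b1 b2) b = c' b := by
  obtain ⟨b1, hb1⟩ : ∃ b1, c b1 ≠ c' b1 := by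
    by_contra h
    push Not at h
    exact hne (funext h)
  obtain ⟨b2, hb2, hb2'⟩ : ∃ b2, c b2 = c' b1 ∧ c' b2 ≠ c' b1 := by
    by_contra h
    push Not at h
    have hsub : (univ.filter fun b => c b = c' b1) ⊆ (univ.filter fun b => c' b = c' b1) := by
      intro b hb
      rw [mem_filter] at hb ⊢
      exact ⟨mem_univ _, h b hb.2⟩
    have hcard : (univ.filter fun b => c' b = c' b1).card ≤
        (univ.filter fun b => c b = c' b1).card := by
      rw [hc, hc']
    have heq := Finset.eq_of_subset_of_card_le hsub hcard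
    have hmem : b1 ∈ (univ.filter fun b => c' b = c' b1) := by
      rw [mem_filter]
      exact ⟨mem_univ _, rfl⟩
    rw [← heq, mem_filter] at hmem
    exact hb1 hmem.2
  have key : ∀ b, c b = c' b → (c ∘ Equiv.swap b1 b2) b = c' b := by
    intro b hb
    have h1 : b ≠ b1 := by
      rintro rfl
      exact hb1 hb
    have h2 : b ≠ b2 := by
      rintro rfl
      exact hb2' (hb.symm.trans hb2)
    rw [Function.comp_apply, Equiv.swap_apply_of_ne_of_ne h1 h2]
    exact hb
  refine ⟨b1, b2, ?_, ?_, key⟩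
  · rw [hb2]
    exact hb1
  · unfold dif
    apply Finset.card_lt_card
    rw [Finset.ssubset_iff_of_subset]
    · refine ⟨b1, ?_, ?_⟩
      · rw [mem_filter]
        exact ⟨mem_univ _, hb1⟩
      · rw [mem_filter]
        rintro ⟨-, h⟩
        apply h
        rw [Function.comp_apply, Equiv.swap_apply_left]
        exact hb2
    · intro b hb
      rw [mem_filter] at hb ⊢
      exact ⟨mem_univ _, fun h => hb.2 (key b h)⟩

theorem bk_path : S_PATH := by
  intro d n c c' hc hc'
  obtain ⟨D, hD⟩ : ∃ D, dif c c' = D := ⟨_, rfl⟩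
  induction D using Nat.strong_induction_on generalizing c with
  | _ D ih =>
    by_cases hne : c = c'
    · refine ⟨0, fun _ => c, Nat.zero_le _, rfl, hne, fun t _ => ⟨hc, fun b hb => hb⟩, ?_⟩
      intro t ht
      exact absurd ht (Nat.not_lt_zero _)
    · obtain ⟨b1, b2, h1, h2, h3⟩ := bk_step hc hc' hne
      obtain ⟨N, s, hN, hs0, hsN, hs, hst⟩ := ih (dif (c ∘ Equiv.swap b1 b2) c') (by omega)
        (c ∘ Equiv.swap b1 b2) (bal_comp hc _) rfl
      refine ⟨N + 1, fun t => Nat.casesOn t c s, by omega, rfl, hsN, ?_, ?_⟩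
      · intro t ht
        rcases t with _ | t
        · exact ⟨hc, fun b hb => hb⟩
        · obtain ⟨h4, h5⟩ := hs t (by omega)
          exact ⟨h4, fun b hb => h5 b (h3 b hb)⟩
      · intro t ht
        rcases t with _ | t
        · refine ⟨b1, b2, h1, ?_⟩
          show s 0 = c ∘ Equiv.swap b1 b2
          exact hs0
        · exact hst t (by omega)

end Pool.Agent.H104
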